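import Pool.Agent.Run7.h71.CD.Stm

/-! Piece JETS of project CD: the jets of `F (X + s ζ(X))`. -/

set_option autoImplicit false

namespace Pool.Agent.Run7.h576.CD

open Set Filter Topology
open scoped ContDiff
open Pool.Agent.Run7.h71.CD

/-- `(s ψ(s))^(k+1) (0) = (k+1) ψ^(k) (0)` -/
theorem iter_mul_id (ψ : ℝ → ℝ) (hψ : ContDiffAt ℝ ∞ ψ 0) (k : ℕ) :
    iteratedDeriv (k + 1) (fun s : ℝ => s * ψ s) 0 = (k + 1 : ℕ) * iteratedDeriv k ψ 0 := by
  have h1 : ContDiffAt ℝ ((k + 1 : ℕ) : WithTop ℕ∞) (fun s : ℝ => s) 0 := contDiffAt_id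
  have h2 : ContDiffAt ℝ ((k + 1 : ℕ) : WithTop ℕ∞) ψ 0 := hψ.of_le (by exact_mod_cast le_top)
  rw [iteratedDeriv_fun_mul h1 h2, Finset.sum_eq_single 1]
  · simp
  · intro i _ hi
    rw [iteratedDeriv_fun_id_zero, if_neg hi]
    simp
  · intro h
    exact absurd (Finset.mem_range.mpr (by omega)) h

theorem fderiv_sum (g : E3 → ℝ) (x v : E3) :
    fderiv ℝ g x v = ∑ i, v i * fderiv ℝ g x (Pi.single i 1) := by
  have h : v = ∑ i, v i • (Pi.single i (1 : ℝ) : E3) := by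
    ext j
    simp [Finset.sum_apply, Pi.single_apply]
  conv_lhs => rw [h]
  rw [map_sum]
  exact Finset.sum_congr rfl fun i _ => by rw [map_smul, smul_eq_mul]

/-- evaluation at a point -/
def ev {O : Set E3} (x : O) : Sm O →ₐ[ℝ] ℝ := (Pi.evalAlgHom ℝ (fun _ : O => ℝ) x).comp (Sm O).val

theorem ev_apply {O : Set E3} (x : O) (f : Sm O) : ev x f = f.1 x := rfl

theorem ext_ev {O : Set E3} {f g : Sm O} (h : ∀ x : O, ev x f = ev x g) : f = g := Sm.ext' h

theorem isUnit_of_ne {O : Set E3} (f : Sm O) (h : ∀ x : O, ev x f ≠ 0) : IsUnit f := by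
  obtain ⟨g, hg, hgf⟩ := f.2
  have hne : ∀ x ∈ O, g x ≠ 0 := fun x hx => by
    have h1 := h ⟨x, hx⟩
    rw [ev_apply, hgf ⟨x, hx⟩] at h1
    exact h1
  refine IsUnit.of_mul_eq_one (mk (fun x => (g x)⁻¹) (hg.inv hne)) ?_
  apply Sm.ext'
  intro x
  change f.1 x * (g x)⁻¹ = 1
  rw [hgf x]
  exact mul_inv_cancel₀ (hne x x.2)

/-- the partial derivatives of `lft F` -/
noncomputable def G (F : ℝ × ℝ → ℝ) (j : Fin 3) (X : E3) : ℝ := fderiv ℝ (lft F) X (Pi.single j 1)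

section

variable {O : Set E3} {ζ : E3 → E3}

theorem ev_mem (hO : IsOpen O) {x : E3} (hx : x ∈ O) : ∀ᶠ s in 𝓝 (0 : ℝ), x + s • ζ x ∈ O := by
  have hc : ContinuousAt (fun s : ℝ => x + s • ζ x) 0 := by fun_prop
  apply hc.eventually_mem
  rw [zero_smul, add_zero]
  exact hO.mem_nhds hx

theorem cd_at (hO : IsOpen O) {g : E3 → ℝ} (hg : ContDiffOn ℝ ∞ g O) {x : E3} (hx : x ∈ O) :
    ContDiffAt ℝ ∞ (fun s : ℝ => g (x + s • ζ x)) 0 := by
  have h1 : ContDiffAt ℝ ∞ (fun s : ℝ => x + s • ζ x) 0 := by fun_prop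
  have h2 : ContDiffAt ℝ ∞ g (x + (0 : ℝ) • ζ x) := by
    have : x + (0 : ℝ) • ζ x = x := by simp
    rw [this]
    exact hg.contDiffAt (hO.mem_nhds hx)
  exact h2.comp (0 : ℝ) h1

theorem cd_nat (hO : IsOpen O) {g : E3 → ℝ} (hg : ContDiffOn ℝ ∞ g O) {x : E3} (hx : x ∈ O) (k : ℕ) :
    ContDiffAt ℝ (k : WithTop ℕ∞) (fun s : ℝ => g (x + s • ζ x)) 0 :=
  (cd_at hO hg hx).of_le (by exact_mod_cast le_top)

/-- derivative along the line -/
theorem deriv_line (hO : IsOpen O) {g : E3 → ℝ} (hg : ContDiffOn ℝ ∞ g O) {x : E3} {s : ℝ}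
    (hs : x + s • ζ x ∈ O) :
    deriv (fun s : ℝ => g (x + s • ζ x)) s =
      ∑ i, ζ x i * fderiv ℝ g (x + s • ζ x) (Pi.single i 1) := by
  have h1 : HasDerivAt (fun s : ℝ => x + s • ζ x) (ζ x) s := by
    have := ((hasDerivAt_id s).smul_const (ζ x)).const_add x
    simpa using this
  have h2 : HasFDerivAt g (fderiv ℝ g (x + s • ζ x)) (x + s • ζ x) :=
    ((hg.contDiffAt (hO.mem_nhds hs)).differentiableAt (by simp)).hasFDerivAt
  have h3 := h2.comp_hasDerivAt s h1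
  rw [← fderiv_sum]
  exact h3.deriv

theorem iter_succ (hO : IsOpen O) {g : E3 → ℝ} (hg : ContDiffOn ℝ ∞ g O)
    (hg' : ∀ i, ContDiffOn ℝ ∞ (fun X => fderiv ℝ g X (Pi.single i 1)) O) {x : E3} (hx : x ∈ O) (k : ℕ) :
    iteratedDeriv (k + 1) (fun s : ℝ => g (x + s • ζ x)) 0 =
      ∑ i, ζ x i * iteratedDeriv k (fun s : ℝ => fderiv ℝ g (x + s • ζ x) (Pi.single i 1)) 0 := by
  rw [iteratedDeriv_succ']
  have h1 : deriv (fun s : ℝ => g (x + s • ζ x)) =ᶠ[𝓝 0]
      fun s => ∑ i, ζ x i * fderiv ℝ g (x + s • ζ x) (Pi.single i 1) := by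
    filter_upwards [ev_mem hO hx] with s hs
    exact deriv_line hO hg hs
  rw [h1.iteratedDeriv_eq k, iteratedDeriv_fun_sum]
  · exact Finset.sum_congr rfl fun i _ => iteratedDeriv_const_mul_field _ _
  · intro i _
    exact contDiffAt_const.mul (cd_nat hO (hg' i) hx k)

end

theorem core (hTK : S_TK) (F : ℝ × ℝ → ℝ) (ζ : E3 → E3) (O : Set E3) (hO : IsOpen O)
    (hlft : ContDiffOn ℝ ∞ (lft F) O)
    (hhom : ∀ X ∈ O, ∀ r : ℝ, 0 < r → lft F (r • X) = lft F X)
    (hEul : ∀ X ∈ O, fderiv ℝ (lft F) X X = 0) (hpos : ∀ X ∈ O, 0 < X 2)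
    (hsm : ContDiffOn ℝ ∞ ζ O) (hhomog : ∀ X ∈ O, ∀ r : ℝ, 0 < r → ζ (r • X) = r • ζ X)
    (htwo : ∀ X ∈ O, iteratedDeriv 2 (fun s : ℝ => lft F (X + s • ζ X)) 0 = 2)
    (hodd : ∀ X ∈ O, ∀ k ∈ ({1, 3, 5, 7} : Set ℕ), iteratedDeriv k (fun s : ℝ => lft F (X + s • ζ X)) 0 = 0)
    (d : Fin 3 → Derivation ℝ (Sm O) (Sm O)) (hd : IsD O d) :
    ∃ (Xc Zc ν : Fin 3 → Sm O) (M : ℕ → Fin 3 → Sm O),
      (∀ i x, (Xc i).1 x = x.1 i) ∧ (∀ i x, (Zc i).1 x = ζ x.1 i) ∧
      (∀ j x, (M 0 j).1 x = fderiv ℝ (lft F) x.1 (Pi.single j 1)) ∧ Jets d Xc Zc ν M := by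
  have hGs : ∀ j, ContDiffOn ℝ ∞ (G F j) O := fun j =>
    (hlft.fderiv_of_isOpen hO (by simp)).clm_apply contDiffOn_const
  have hζi : ∀ i, ContDiffOn ℝ ∞ (fun X => ζ X i) O := fun i => contDiffOn_pi.mp hsm i
  -- the open set `W`
  have hmap : ContDiffOn ℝ ∞ (fun z : E3 × ℝ => z.1 + z.2 • ζ z.1) (O ×ˢ univ) :=
    contDiffOn_fst.add (contDiffOn_snd.smul (hsm.comp contDiffOn_fst (fun z hz => hz.1)))
  set W : Set (E3 × ℝ) := (O ×ˢ univ) ∩ (fun z : E3 × ℝ => z.1 + z.2 • ζ z.1) ⁻¹' O with hWdef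
  have hW : IsOpen W := hmap.continuousOn.isOpen_inter_preimage (hO.prod isOpen_univ) hO
  have hW0 : ∀ X ∈ O, (X, (0 : ℝ)) ∈ W := fun X hX => ⟨⟨hX, mem_univ _⟩, by simpa using hX⟩
  have hΦ : ∀ g : E3 → ℝ, ContDiffOn ℝ ∞ g O →
      ContDiffOn ℝ ∞ (fun z : E3 × ℝ => g (z.1 + z.2 • ζ z.1)) W := fun g hg =>
    hg.comp (hmap.mono inter_subset_left) (fun z hz => hz.2)
  have hT := fun (g : E3 → ℝ) (hg : ContDiffOn ℝ ∞ g O) (k : ℕ) =>
    hTK O W (fun z : E3 × ℝ => g (z.1 + z.2 • ζ z.1)) hO hW hW0 (hΦ g hg) k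
  have hTs : ∀ (g : E3 → ℝ) (_ : ContDiffOn ℝ ∞ g O) (k : ℕ),
      ContDiffOn ℝ ∞ (fun X => iteratedDeriv k (fun s : ℝ => g (X + s • ζ X)) 0) O :=
    fun g hg k => (hT g hg k).1
  let Xc : Fin 3 → Sm O := fun i => mk (fun X => X i) (by fun_prop)
  let Zc : Fin 3 → Sm O := fun i => mk (fun X => ζ X i) (hζi i)
  let ν : Fin 3 → Sm O := fun i => (-(1 / 2) : ℝ) • ∑ j, Zc j * d j (Zc i)
  let M : ℕ → Fin 3 → Sm O := fun k j =>
    mk (fun X => iteratedDeriv k (fun s : ℝ => G F j (X + s • ζ X)) 0) (hTs (G F j) (hGs j) k)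
  have eXc : ∀ i (x : O), ev x (Xc i) = x.1 i := fun i x => rfl
  have eZc : ∀ i (x : O), ev x (Zc i) = ζ x.1 i := fun i x => rfl
  have eM : ∀ k j (x : O), ev x (M k j) = iteratedDeriv k (fun s : ℝ => G F j (x.1 + s • ζ x.1)) 0 :=
    fun k j x => rfl
  have eD : ∀ (j : Fin 3) (g : E3 → ℝ) (hg : ContDiffOn ℝ ∞ g O) (x : O),
      ev x (d j (mk g hg)) = fderiv ℝ g x (Pi.single j 1) := hd.eq
  -- contraction with `ζ`
  have hcon : ∀ k (x : O), ev x (dot (M k) Zc) =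
      iteratedDeriv (k + 1) (fun s : ℝ => lft F (x.1 + s • ζ x.1)) 0 := by
    intro k x
    rw [iter_succ hO hlft hGs x.2 k]
    unfold dot
    rw [map_sum]
    apply Finset.sum_congr rfl
    intro i _
    rw [map_mul, eM, eZc, mul_comm]
    rfl
  have hcon' : ∀ k, dot (M k) Zc =
      mk (fun X => iteratedDeriv (k + 1) (fun s : ℝ => lft F (X + s • ζ X)) 0) (hTs (lft F) hlft (k + 1)) :=
    fun k => ext_ev fun x => hcon k x
  have hM0 : ∀ j (x : O), ev x (M 0 j) = G F j x.1 := by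
    intro j x
    rw [eM, iteratedDeriv_zero]
    simp
  have hM1 : ∀ j, ∑ i, Zc i * d i (M 0 j) = M 1 j := by
    intro j
    apply ext_ev
    intro x
    have e0 : M 0 j = mk (G F j) (hGs j) := ext_ev fun x => hM0 j x
    rw [map_sum, eM, iteratedDeriv_one, deriv_line hO (hGs j) (x := x.1) (s := 0) (by simp)]
    apply Finset.sum_congr rfl
    intro i _
    rw [map_mul, eZc, e0, eD]
    simp
  have hf1 : dot (M 0) Zc = 0 := by
    apply ext_ev
    intro x
    rw [hcon, map_zero]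
    exact hodd x.1 x.2 1 (by simp)
  have hf2 : dot (M 1) Zc = 2 := by
    apply ext_ev
    intro x
    rw [hcon, map_ofNat]
    exact htwo x.1 x.2
  have hZζ : ∀ i, ∑ j, Zc j * d j (Zc i) = -2 * ν i := by
    intro i
    change _ = -2 * ((-(1 / 2) : ℝ) • ∑ j, Zc j * d j (Zc i))
    rw [mul_smul_comm, ← smul_mul_assoc]
    have : (-(1 / 2) : ℝ) • (-2 : Sm O) = 1 := by
      apply ext_ev
      intro x
      rw [map_smul, map_neg, map_ofNat, map_one]
      norm_num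
    rw [this, one_mul]
  have hdν : dot (M 0) ν = 1 := by
    -- differentiate `dot (M 0) ζ = 0` along `ζ`
    have h1 : ∑ j, Zc j * d j (dot (M 0) Zc) = 0 := by
      rw [hf1]
      simp
    have h2 : ∑ j, Zc j * d j (dot (M 0) Zc) =
        dot (M 1) Zc + ∑ i, M 0 i * ∑ j, Zc j * d j (Zc i) := by
      have h3 : dot (M 1) Zc = ∑ i, (∑ j, Zc j * d j (M 0 i)) * Zc i := by
        unfold dot
        exact Finset.sum_congr rfl fun i _ => by rw [hM1]
      rw [h3]
      unfold dot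
      simp only [map_sum, Derivation.leibniz, smul_eq_mul, Finset.mul_sum, Finset.sum_mul]
      rw [Finset.sum_comm, ← Finset.sum_add_distrib]
      apply Finset.sum_congr rfl
      intro i _
      rw [← Finset.sum_add_distrib]
      apply Finset.sum_congr rfl
      intro j _
      ring
    rw [h1, hf2] at h2
    have h4 : ∑ i, M 0 i * ∑ j, Zc j * d j (Zc i) = -2 * dot (M 0) ν := by
      unfold dot
      rw [Finset.mul_sum]
      exact Finset.sum_congr rfl fun i _ => by rw [hZζ]; ring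
    rw [h4] at h2
    apply ncancel 2 (by norm_num)
    push_cast
    linear_combination h2
  refine ⟨Xc, Zc, ν, M, fun i x => rfl, fun i x => rfl, fun j x => hM0 j x, ?_⟩
  refine ⟨hd.comm, ?_, ?_, hZζ, ?_, hM1, ?_, ?_, ?_, hf1, hf2, ?_, ?_, ?_⟩
  · -- dX
    intro i j
    apply ext_ev
    intro x
    have h1 : HasFDerivAt (fun X : E3 => X i) (ContinuousLinearMap.proj (R := ℝ) i) x.1 :=
      (ContinuousLinearMap.proj (R := ℝ) (φ := fun _ : Fin 3 => ℝ) i).hasFDerivAt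
    rw [eD, h1.fderiv]
    by_cases h : i = j
    · subst h
      simp
    · rw [if_neg h, map_zero]
      simp [Pi.single_apply, h]
  · -- Eζ
    intro i
    apply ext_ev
    intro x
    rw [map_sum, eZc]
    have h1 : ∑ j, ev x (Xc j * d j (Zc i)) = fderiv ℝ (fun X => ζ X i) x.1 x.1 := by
      rw [fderiv_sum]
      apply Finset.sum_congr rfl
      intro j _
      rw [map_mul, eXc, eD]
    rw [h1]
    have h2 : HasDerivAt (fun r : ℝ => r • x.1) x.1 1 := by
      have := (hasDerivAt_id (1 : ℝ)).smul_const x.1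
      simpa using this
    have h3 : HasFDerivAt (fun X => ζ X i) (fderiv ℝ (fun X => ζ X i) x.1) ((1 : ℝ) • x.1) := by
      rw [one_smul]
      exact (((hζi i).contDiffAt (hO.mem_nhds x.2)).differentiableAt (by simp)).hasFDerivAt
    have h4 := h3.comp_hasDerivAt (1 : ℝ) h2
    have h5 : HasDerivAt (fun r : ℝ => r * ζ x.1 i) (ζ x.1 i) 1 := by
      have := (hasDerivAt_id (1 : ℝ)).mul_const (ζ x.1 i)
      simpa using this
    have h6 : (fun r : ℝ => r * ζ x.1 i) =ᶠ[𝓝 1] ((fun X => ζ X i) ∘ fun r : ℝ => r • x.1) := by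
      filter_upwards [lt_mem_nhds (show (0 : ℝ) < 1 by norm_num)] with r hr
      simp [hhomog x.1 x.2 r hr]
    exact (h4.congr_of_eventuallyEq h6).unique h5
  · -- det
    apply isUnit_of_ne
    intro x h0
    have h1 := RingHom.map_det (ev x : Sm O →+* ℝ) (Matrix.of ![Xc, Zc, ν])
    have h2 : ((ev x : Sm O →+* ℝ).mapMatrix (Matrix.of ![Xc, Zc, ν])).det = 0 := by
      rw [← h1]
      exact h0
    obtain ⟨v, hv0, hv⟩ := Matrix.exists_vecMul_eq_zero_iff.mpr h2
    have h3 : ∀ i, v 0 * x.1 i + v 1 * ζ x.1 i + v 2 * ev x (ν i) = 0 := by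
      intro i
      have := congrFun hv i
      simpa [Matrix.vecMul, dotProduct, Fin.sum_univ_three, eXc, eZc] using this
    have gX : ∑ i, G F i x.1 * x.1 i = 0 := by
      have := hEul x.1 x.2
      rw [fderiv_sum] at this
      rw [← this]
      exact Finset.sum_congr rfl fun i _ => mul_comm _ _
    have gZ : ∑ i, G F i x.1 * ζ x.1 i = 0 := by
      have := congrArg (ev x) hf1
      unfold dot at this
      rw [map_sum, map_zero] at this
      rw [← this]
      exact Finset.sum_congr rfl fun i _ => by rw [map_mul, hM0, eZc]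
    have gN : ∑ i, G F i x.1 * ev x (ν i) = 1 := by
      have := congrArg (ev x) hdν
      unfold dot at this
      rw [map_sum, map_one] at this
      rw [← this]
      exact Finset.sum_congr rfl fun i _ => by rw [map_mul, hM0]
    have hv2 : v 2 = 0 := by
      have e : ∑ i, G F i x.1 * (v 0 * x.1 i + v 1 * ζ x.1 i + v 2 * ev x (ν i)) = 0 :=
        Finset.sum_eq_zero fun i _ => by rw [h3 i, mul_zero]
      have e' : ∑ i, G F i x.1 * (v 0 * x.1 i + v 1 * ζ x.1 i + v 2 * ev x (ν i)) =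
          v 0 * ∑ i, G F i x.1 * x.1 i + v 1 * ∑ i, G F i x.1 * ζ x.1 i +
            v 2 * ∑ i, G F i x.1 * ev x (ν i) := by
        simp only [Finset.mul_sum, ← Finset.sum_add_distrib]
        exact Finset.sum_congr rfl fun i _ => by ring
      rw [e', gX, gZ, gN] at e
      linarith
    have hx2 : 0 < x.1 2 := hpos x.1 x.2
    have hv1 : v 1 ≠ 0 := by
      intro h
      have := h3 2
      rw [h, hv2] at this
      have hv00 : v 0 = 0 := by
        rcases mul_eq_zero.mp (by linarith : v 0 * x.1 2 = 0) with h' | h'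
        · exact h'
        · exact absurd h' hx2.ne'
      apply hv0
      ext i
      fin_cases i
      · exact hv00
      · exact h
      · exact hv2
    have hζ : ζ x.1 = (-(v 0 / v 1)) • x.1 := by
      ext i
      have := h3 i
      rw [hv2] at this
      simp only [Pi.smul_apply, smul_eq_mul]
      field_simp
      linarith
    have hconst : (fun s : ℝ => lft F (x.1 + s • ζ x.1)) =ᶠ[𝓝 0] fun _ => lft F x.1 := by
      have hc : ContinuousAt (fun s : ℝ => 1 + s * (-(v 0 / v 1))) 0 := by fun_prop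
      have hpos : ∀ᶠ s in 𝓝 (0 : ℝ), 0 < 1 + s * (-(v 0 / v 1)) :=
        hc.eventually (lt_mem_nhds (by simp))
      filter_upwards [hpos] with s hs
      have e : x.1 + s • ζ x.1 = (1 + s * (-(v 0 / v 1))) • x.1 := by
        rw [hζ, smul_smul, add_smul, one_smul]
      rw [e]
      exact hhom x.1 x.2 _ hs
    have h4 := htwo x.1 x.2
    rw [hconst.iteratedDeriv_eq 2, iteratedDeriv_const] at h4
    norm_num at h4
  · -- X0
    apply ext_ev
    intro x
    unfold dot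
    rw [map_sum, map_zero]
    have := hEul x.1 x.2
    rw [fderiv_sum] at this
    rw [← this]
    exact Finset.sum_congr rfl fun i _ => by rw [map_mul, hM0, eXc, mul_comm]; rfl
  · -- XM
    intro k _
    apply ext_ev
    intro x
    have h1 : (fun s : ℝ => ∑ i, (x.1 i * G F i (x.1 + s • ζ x.1) + ζ x.1 i * (s * G F i (x.1 + s • ζ x.1))))
        =ᶠ[𝓝 0] fun _ => 0 := by
      filter_upwards [ev_mem hO x.2] with s hs
      have := hEul _ hs
      rw [fderiv_sum] at this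
      rw [← this]
      apply Finset.sum_congr rfl
      intro i _
      simp only [Pi.add_apply, Pi.smul_apply, smul_eq_mul]
      unfold G
      ring
    have h2 := h1.iteratedDeriv_eq (k + 1)
    have hc : ∀ i, ContDiffAt ℝ ((k + 1 : ℕ) : WithTop ℕ∞) (fun s : ℝ => G F i (x.1 + s • ζ x.1)) 0 :=
      fun i => cd_nat hO (hGs i) x.2 (k + 1)
    have hc1 : ∀ i, ContDiffAt ℝ ((k + 1 : ℕ) : WithTop ℕ∞) (fun s : ℝ => x.1 i * G F i (x.1 + s • ζ x.1)) 0 :=
      fun i => contDiffAt_const.mul (hc i)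
    have hc2 : ∀ i, ContDiffAt ℝ ((k + 1 : ℕ) : WithTop ℕ∞)
        (fun s : ℝ => ζ x.1 i * (s * G F i (x.1 + s • ζ x.1))) 0 :=
      fun i => contDiffAt_const.mul (contDiffAt_id.mul (hc i))
    rw [iteratedDeriv_fun_sum (fun i _ => (hc1 i).add (hc2 i)), iteratedDeriv_const, if_neg (by omega)] at h2
    rw [map_zero, ← h2, map_add, map_mul]
    unfold dot
    rw [map_sum, map_sum, Finset.mul_sum, ← Finset.sum_add_distrib]
    apply Finset.sum_congr rfl
    intro i _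
    rw [iteratedDeriv_fun_add (hc1 i) (hc2 i), iteratedDeriv_const_mul_field, iteratedDeriv_const_mul_field,
      iter_mul_id _ (cd_at hO (hGs i) x.2), map_mul, map_mul, eM, eM, eXc, eZc, map_natCast]
    ring
  · -- dM
    intro k _ j
    apply ext_ev
    intro x
    rw [hcon', eD, (hT (lft F) hlft (k + 1)).2 x.1 x.2 (Pi.single j 1)]
    have hζd : HasFDerivAt ζ (fderiv ℝ ζ x.1) x.1 :=
      ((hsm.contDiffAt (hO.mem_nhds x.2)).differentiableAt (by simp)).hasFDerivAt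
    have hζij : ∀ i, fderiv ℝ (fun X => ζ X i) x.1 (Pi.single j 1) = fderiv ℝ ζ x.1 (Pi.single j 1) i := by
      intro i
      have := (hasFDerivAt_pi'.mp hζd i).fderiv
      rw [this]
      rfl
    have h1 : (fun s : ℝ => fderiv ℝ (fun z : E3 × ℝ => lft F (z.1 + z.2 • ζ z.1)) (x.1, s) (Pi.single j 1, 0))
        =ᶠ[𝓝 0] fun s => G F j (x.1 + s • ζ x.1) +
          ∑ i, fderiv ℝ (fun X => ζ X i) x.1 (Pi.single j 1) * (s * G F i (x.1 + s • ζ x.1)) := by
      filter_upwards [ev_mem hO x.2] with s hs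
      have a1 : HasFDerivAt (fun z : E3 × ℝ => z.1 + z.2 • ζ z.1)
          (ContinuousLinearMap.fst ℝ E3 ℝ + (s • ((fderiv ℝ ζ x.1).comp (ContinuousLinearMap.fst ℝ E3 ℝ)) +
            (ContinuousLinearMap.snd ℝ E3 ℝ).smulRight (ζ x.1))) (x.1, s) := by
        have b1 : HasFDerivAt (fun z : E3 × ℝ => ζ z.1)
            ((fderiv ℝ ζ x.1).comp (ContinuousLinearMap.fst ℝ E3 ℝ)) (x.1, s) :=
          HasFDerivAt.comp (x.1, s) (g := ζ) (f := fun z : E3 × ℝ => z.1) hζd hasFDerivAt_fst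
        exact hasFDerivAt_fst.add (hasFDerivAt_snd.smul b1)
      have a2 : HasFDerivAt (lft F) (fderiv ℝ (lft F) (x.1 + s • ζ x.1)) (x.1 + s • ζ x.1) :=
        ((hlft.contDiffAt (hO.mem_nhds hs)).differentiableAt (by simp)).hasFDerivAt
      have a3 : HasFDerivAt (fun z : E3 × ℝ => lft F (z.1 + z.2 • ζ z.1)) _ (x.1, s) :=
        HasFDerivAt.comp (x.1, s) (g := lft F) (f := fun z : E3 × ℝ => z.1 + z.2 • ζ z.1) a2 a1
      rw [a3.fderiv]
      have a4 : ((fderiv ℝ (lft F) (x.1 + s • ζ x.1)).comp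
          (ContinuousLinearMap.fst ℝ E3 ℝ + (s • ((fderiv ℝ ζ x.1).comp (ContinuousLinearMap.fst ℝ E3 ℝ)) +
            (ContinuousLinearMap.snd ℝ E3 ℝ).smulRight (ζ x.1)))) (Pi.single j 1, 0) =
          fderiv ℝ (lft F) (x.1 + s • ζ x.1) (Pi.single j 1) +
            s * fderiv ℝ (lft F) (x.1 + s • ζ x.1) (fderiv ℝ ζ x.1 (Pi.single j 1)) := by
        simp
      rw [a4, fderiv_sum (lft F) (x.1 + s • ζ x.1) (fderiv ℝ ζ x.1 (Pi.single j 1)), Finset.mul_sum]
      congr 1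
      apply Finset.sum_congr rfl
      intro i _
      rw [hζij]
      unfold G
      ring
    have hc : ∀ i, ContDiffAt ℝ ((k + 1 : ℕ) : WithTop ℕ∞) (fun s : ℝ => G F i (x.1 + s • ζ x.1)) 0 :=
      fun i => cd_nat hO (hGs i) x.2 (k + 1)
    have hc2 : ∀ i, ContDiffAt ℝ ((k + 1 : ℕ) : WithTop ℕ∞)
        (fun s : ℝ => fderiv ℝ (fun X => ζ X i) x.1 (Pi.single j 1) * (s * G F i (x.1 + s • ζ x.1))) 0 :=
      fun i => contDiffAt_const.mul (contDiffAt_id.mul (hc i))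
    rw [h1.iteratedDeriv_eq (k + 1), iteratedDeriv_fun_add (hc j) (ContDiffAt.sum fun i _ => hc2 i),
      iteratedDeriv_fun_sum (fun i _ => hc2 i), map_add, map_mul, eM, map_natCast]
    congr 1
    unfold dot
    rw [map_sum, Finset.mul_sum]
    apply Finset.sum_congr rfl
    intro i _
    rw [iteratedDeriv_const_mul_field, iter_mul_id _ (cd_at hO (hGs i) x.2), map_mul, eM, eD]
    ring
  · apply ext_ev
    intro x
    rw [hcon, map_zero]
    exact hodd x.1 x.2 3 (by simp)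
  · apply ext_ev
    intro x
    rw [hcon, map_zero]
    exact hodd x.1 x.2 5 (by simp)
  · apply ext_ev
    intro x
    rw [hcon, map_zero]
    exact hodd x.1 x.2 7 (by simp)

theorem t_JETS : S_JETS := by
  intro hLFT hTK U F ζ hL hF d hd
  obtain ⟨hO, hlft, hhom, -, hEul, -, -⟩ := hLFT U F hL.isOpen hL.smooth
  exact core hTK F ζ (cone U) hO hlft (fun X hX r hr => (hhom X hX r hr).2) hEul (fun X hX => hX.1)
    hF.smooth hF.homog hF.two hF.odd d hd

end Pool.Agent.Run7.h576.CD
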